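import Pool.Agent.Y57.FD.Sets
import Pool.Agent.Y57.FD.Prod

/-!
# Products of `g` elliptic curves whose `3 g` coefficients are integers with few changed digits: the first five moments of all the
coefficients `a_i(A)(p)` of the normalised Euler factors are those of the Haar measure of `SU(2) ^ g`
-/

set_option autoImplicit false

namespace Pool.Agent.Results.MP_753a9c_nt.FewDigitProducts

open Finset MeasureTheory

/-- The number of the solutions of `Y ^ 2 = X ^ 3 + a 2 X ^ 2 + a 1 X + a 0` modulo `p`. -/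
noncomputable def points (p : ℕ) (a : Fin 3 → ℕ) : ℕ :=
  Nat.card {P : ZMod p × ZMod p // P.2 ^ 2 = P.1 ^ 3 + ∑ i : Fin 3, (a i : ZMod p) * P.1 ^ (i : ℕ)}

/-- `p` is odd and `X ^ 3 + a 2 X ^ 2 + a 1 X + a 0` is separable modulo `p`; then the elliptic curve
`Y ^ 2 = X ^ 3 + a 2 X ^ 2 + a 1 X + a 0` has good reduction at `p`. -/
def Smooth (p : ℕ) (a : Fin 3 → ℕ) : Prop :=
  p ≠ 2 ∧ (Polynomial.X ^ 3 + ∑ i : Fin 3, Polynomial.C ((a i : ℕ) : ZMod p) * Polynomial.X ^ (i : ℕ) : Polynomial (ZMod p)).Separable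

/-- The normalised Frobenius trace `(p + 1 - #E(F_p)) / p ^ (1 / 2)` of the curve `Y ^ 2 = X ^ 3 + a 2 X ^ 2 + a 1 X + a 0`. -/
noncomputable def frobTrace (p : ℕ) (a : Fin 3 → ℕ) : ℝ := ((p : ℝ) - points p a) / Real.sqrt p

/-- The coefficients of the curve `E_j` (`j < g`): the numbers `m (3 j)`, `m (3 j + 1)`, `m (3 j + 2)`. -/
def curve {g : ℕ} (m : Fin (g * 3) → ℕ) (j : Fin g) : Fin 3 → ℕ := fun i => m (finProdFinEquiv (j, i))

/-- The coefficient of `T ^ i` in `∏ j, (1 - t j T + T ^ 2)`. -/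
noncomputable def eulerCoeff {g : ℕ} (t : Fin g → ℝ) (i : ℕ) : ℝ :=
  (∏ j, (1 - Polynomial.C (t j) * Polynomial.X + Polynomial.X ^ 2)).coeff i

open Classical in
/-- The sum of `(a_i(A)(p)) ^ e` over the primes `p ∈ P` at which all the curves `E_j` have good reduction, where `A` is the product of
the `g` curves `E_j` and `∑ a_i(A)(p) T ^ i` is its normalised Euler factor. -/
noncomputable def momentSum {g : ℕ} (P : Finset ℕ) (i e : ℕ) (m : Fin (g * 3) → ℕ) : ℝ :=
  ∑ p ∈ P.filter (fun p => ∀ j, Smooth p (curve m j)), eulerCoeff (fun j => frobTrace p (curve m j)) i ^ e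

/-- The integral of the `e`-th power of the `i`-th coefficient of the characteristic polynomial over `SU(2) ^ g` with respect to the
Haar measure (Weyl's integration formula: the angle of each factor has the density `2 / π sin ^ 2 θ` on `[0, π]`). -/
noncomputable def haarMoment (g i e : ℕ) : ℝ :=
  ∫ θ in Set.univ.pi (fun _ : Fin g => Set.Icc (0 : ℝ) Real.pi),
    eulerCoeff (fun j => 2 * Real.cos (θ j)) i ^ e * ∏ j, (2 / Real.pi * Real.sin (θ j) ^ 2)

/-- For all sets `P ∈ F` of primes, all `i ≤ 2 g` and all `e ≤ 5` the `e`-th moment of `a_i(A)(p)` is the predicted one. -/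
def GoodMoments {g : ℕ} (δ : ℝ) (F : Finset (Finset ℕ)) (x : ℕ) (m : Fin (g * 3) → ℕ) : Prop :=
  ∀ P ∈ F, ∀ i ≤ 2 * g, ∀ e ≤ 5, |momentSum P i e m - haarMoment g i e * (P.card : ℝ)| ≤ Real.sqrt (P.card : ℝ) * (x : ℝ) ^ δ

/-- The digit number `i` (counted from the right, beginning with `0`) of `n` in base `b`. -/
def digit (b i n : ℕ) : ℕ := n / b ^ i % b

/-- The number which arises from the number `N` with at most `K` digits in base `b`, if for every `i ∈ S`
the digit number `i` is replaced by `f i`. -/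
def change (b K N : ℕ) (f : ℕ → ℕ) (S : Finset ℕ) : ℕ :=
  ∑ i ∈ range K, (if i ∈ S then f i else digit b i N) * b ^ i

open Classical in
/-- The number of the choices of `r l` of `K l` positions for all `l < d` for which the vector of the numbers obtained by
changing the digits of the `N l` at the chosen positions (according to `f l`) does not have the property `E`. -/
noncomputable def exceptions {d : ℕ} (b : ℕ) (K r N : Fin d → ℕ) (f : Fin d → ℕ → ℕ) (E : (Fin d → ℕ) → Prop) : ℕ :=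
  ((Fintype.piFinset (fun l => powersetCard (r l) (range (K l)))).filter
    (fun S => ¬ E (fun l => change b (K l) (N l) (f l) (S l)))).card

lemma exc_eq {d : ℕ} (b : ℕ) (K r N : Fin d → ℕ) (f : Fin d → ℕ → ℕ) (E : (Fin d → ℕ) → Prop) :
    exceptions b K r N f E = Pool.Agent.Y57.FD.exceptions b K r N f E := rfl

lemma card_affine (p : ℕ) [Fact p.Prime] (hp : p ≠ 2) (f : ZMod p → ZMod p) :
    (Nat.card {P : ZMod p × ZMod p // P.2 ^ 2 = f P.1} : ℝ) = (p : ℝ) + ∑ x : ZMod p, (quadraticChar (ZMod p) (f x) : ℝ) := by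
  classical
  have hchar : ringChar (ZMod p) ≠ 2 := by
    rw [ZMod.ringChar_zmod_n]
    exact hp
  have h1 : Nat.card {P : ZMod p × ZMod p // P.2 ^ 2 = f P.1} = ∑ x : ZMod p, Nat.card {y : ZMod p // y ^ 2 = f x} := by
    rw [← Nat.card_sigma]
    refine Nat.card_congr ⟨fun P => ⟨P.1.1, ⟨P.1.2, P.2⟩⟩, fun P => ⟨(P.1, P.2.1), P.2.2⟩, fun _ => rfl, fun _ => rfl⟩
  have h2 : ∀ x : ZMod p, ((Nat.card {y : ZMod p // y ^ 2 = f x} : ℕ) : ℤ) = quadraticChar (ZMod p) (f x) + 1 := by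
    intro x
    rw [← quadraticChar_card_sqrts hchar (f x)]
    congr 1
    rw [Nat.card_eq_fintype_card, Fintype.card_subtype]
    congr 1
    ext y
    simp
  rw [h1]
  push_cast
  have h3 : ∀ x : ZMod p, ((Nat.card {y : ZMod p // y ^ 2 = f x} : ℕ) : ℝ) = (quadraticChar (ZMod p) (f x) : ℝ) + 1 := by
    intro x
    have := h2 x
    exact_mod_cast this
  rw [sum_congr rfl (fun x _ => h3 x), sum_add_distrib, sum_const, card_univ, ZMod.card, nsmul_eq_mul, mul_one]
  ring

lemma smooth_iff (p : ℕ) (a : Fin 3 → ℕ) : Smooth p a ↔ p ≠ 2 ∧ Pool.Agent.Y57.FD.PR.Sep p a := Iff.rfl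

lemma frob_eq (p : ℕ) (hp : p.Prime) (a : Fin 3 → ℕ) (h : Smooth p a) : frobTrace p a = Pool.Agent.Y57.FD.PR.nt p a := by
  classical
  haveI : Fact p.Prime := ⟨hp⟩
  have h3 : (Pool.Agent.Y57.FD.HM.pol p (D := 2 * 1 + 1) (fun i => ((a i : ℕ) : ZMod p))).Separable := h.2
  unfold frobTrace Pool.Agent.Y57.FD.PR.nt Pool.Agent.Y57.FD.HM.tr
  rw [dif_pos ⟨hp, h.1⟩, if_pos h3]
  unfold points
  rw [card_affine p h.1 (fun x => x ^ 3 + ∑ i : Fin 3, (a i : ZMod p) * x ^ (i : ℕ)), ZMod.card]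
  have h5 : ∀ x : ZMod p, Pool.Agent.Y57.FD.Mom.val (ZMod p) (2 * 1 + 1) (fun i => ((a i : ℕ) : ZMod p)) x =
    x ^ 3 + ∑ i : Fin 3, (a i : ZMod p) * x ^ (i : ℕ) := fun x => rfl
  simp only [h5]
  ring

/-- the coefficients are polynomials of degree at most `1` in every trace -/
lemma coeff_poly (g : ℕ) (s : Finset (Fin g)) : ∀ i : ℕ, ∃ P : MvPolynomial (Fin g) ℝ,
    (∀ j, P.degreeOf j ≤ if j ∈ s then 1 else 0) ∧
    ∀ t : Fin g → ℝ, MvPolynomial.eval t P = (∏ j ∈ s, (1 - Polynomial.C (t j) * Polynomial.X + Polynomial.X ^ 2)).coeff i := by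
  classical
  induction s using Finset.induction_on with
  | empty =>
    intro i
    refine ⟨MvPolynomial.C (if i = 0 then 1 else 0), fun j => ?_, fun t => ?_⟩
    · rw [MvPolynomial.degreeOf_C]
      exact Nat.zero_le _
    · rw [MvPolynomial.eval_C, prod_empty, Polynomial.coeff_one]
  | insert a s ha ih =>
    intro i
    obtain ⟨P0, hd0, he0⟩ := ih i
    obtain ⟨P1, hd1, he1⟩ := ih (i - 1)
    obtain ⟨P2, hd2, he2⟩ := ih (i - 2)
    refine ⟨P0 + MvPolynomial.C (if 1 ≤ i then -1 else 0) * (MvPolynomial.X a * P1) + MvPolynomial.C (if 2 ≤ i then 1 else 0) * P2,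
      fun j => ?_, fun t => ?_⟩
    · have hs : (if j ∈ s then 1 else 0) ≤ if j ∈ insert a s then 1 else 0 := by
        by_cases h1 : j ∈ s
        · rw [if_pos h1, if_pos (mem_insert_of_mem h1)]
        · rw [if_neg h1]
          exact Nat.zero_le _
      refine (MvPolynomial.degreeOf_add_le j _ _).trans (max_le ((MvPolynomial.degreeOf_add_le j _ _).trans (max_le ?_ ?_)) ?_)
      · exact (hd0 j).trans hs
      · refine (MvPolynomial.degreeOf_C_mul_le _ _ _).trans ((MvPolynomial.degreeOf_mul_le j _ _).trans ?_)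
        rw [MvPolynomial.degreeOf_X]
        have h1 := hd1 j
        by_cases h2 : j = a
        · rw [if_pos h2, if_pos (by rw [h2]; exact mem_insert_self a s)]
          rw [if_neg (by rw [h2]; exact ha)] at h1
          omega
        · rw [if_neg h2, zero_add]
          exact h1.trans hs
      · exact (MvPolynomial.degreeOf_C_mul_le _ _ _).trans ((hd2 j).trans hs)
    · rw [prod_insert ha, map_add, map_add, map_mul, map_mul, map_mul, MvPolynomial.eval_C, MvPolynomial.eval_C, MvPolynomial.eval_X,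
        he0, he1, he2]
      obtain ⟨Q, hQ⟩ : ∃ Q : Polynomial ℝ, Q = ∏ j ∈ s, (1 - Polynomial.C (t j) * Polynomial.X + Polynomial.X ^ 2) := ⟨_, rfl⟩
      rw [← hQ]
      have h1 : (1 - Polynomial.C (t a) * Polynomial.X + Polynomial.X ^ 2) * Q =
          Q - Polynomial.C (t a) * (Polynomial.X ^ 1 * Q) + Polynomial.X ^ 2 * Q := by ring
      rw [h1, Polynomial.coeff_add, Polynomial.coeff_sub, Polynomial.coeff_C_mul, Polynomial.coeff_X_pow_mul', Polynomial.coeff_X_pow_mul']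
      split_ifs <;> ring

lemma exists_poly (g i e : ℕ) (he : e ≤ 5) : ∃ P : MvPolynomial (Fin g) ℝ, (∀ j, P.degreeOf j ≤ 5) ∧
    ∀ t : Fin g → ℝ, MvPolynomial.eval t P = eulerCoeff t i ^ e := by
  obtain ⟨P, hd, hP⟩ := coeff_poly g univ i
  refine ⟨P ^ e, fun j => ?_, fun t => ?_⟩
  · refine (MvPolynomial.degreeOf_pow_le j P e).trans ?_
    have h1 : P.degreeOf j ≤ 1 := by
      have := hd j
      rwa [if_pos (mem_univ j)] at this
    calc e * P.degreeOf j ≤ 5 * 1 := Nat.mul_le_mul he h1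
      _ = 5 := by norm_num
  · rw [map_pow, hP]
    rfl

/-! ### The integrals -/

/-- the density -/
noncomputable def dens (θ : ℝ) : ℝ := 2 / Real.pi * Real.sin θ ^ 2

lemma cos_rec (k : ℕ) : ∫ x in (0 : ℝ)..Real.pi, Real.cos x ^ (k + 2) = ((k : ℝ) + 1) / (k + 2) * ∫ x in (0 : ℝ)..Real.pi, Real.cos x ^ k := by
  rw [integral_cos_pow]
  simp

lemma st_moment (k : ℕ) (hk : k ≤ 5) :
    ∫ θ in Set.Icc (0 : ℝ) Real.pi, (2 * Real.cos θ) ^ k * dens θ = Pool.Agent.Y57.FD.Mom.usp 1 k := by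
  have hpi : Real.pi ≠ 0 := Real.pi_ne_zero
  rw [MeasureTheory.integral_Icc_eq_integral_Ioc, ← intervalIntegral.integral_of_le Real.pi_pos.le]
  have h1 : ∀ θ : ℝ, (2 * Real.cos θ) ^ k * dens θ = 2 / Real.pi * 2 ^ k * (Real.cos θ ^ k - Real.cos θ ^ (k + 2)) := by
    intro θ
    unfold dens
    rw [Real.sin_sq, mul_pow]
    ring
  have h2 : ∫ θ in (0 : ℝ)..Real.pi, (2 * Real.cos θ) ^ k * dens θ =
      2 / Real.pi * 2 ^ k * ((∫ θ in (0 : ℝ)..Real.pi, Real.cos θ ^ k) - ∫ θ in (0 : ℝ)..Real.pi, Real.cos θ ^ (k + 2)) := by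
    simp only [h1]
    rw [intervalIntegral.integral_const_mul, intervalIntegral.integral_sub]
    · exact (Real.continuous_cos.pow k).intervalIntegrable _ _
    · exact (Real.continuous_cos.pow (k + 2)).intervalIntegrable _ _
  rw [h2, cos_rec]
  have i0 : ∫ x in (0 : ℝ)..Real.pi, Real.cos x ^ 0 = Real.pi := by simp
  have i1 : ∫ x in (0 : ℝ)..Real.pi, Real.cos x ^ 1 = 0 := by simp
  have i2 : ∫ x in (0 : ℝ)..Real.pi, Real.cos x ^ 2 = Real.pi / 2 := by
    rw [cos_rec 0, i0]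
    norm_num
    ring
  have i3 : ∫ x in (0 : ℝ)..Real.pi, Real.cos x ^ 3 = 0 := by
    rw [cos_rec 1, i1, mul_zero]
  have i4 : ∫ x in (0 : ℝ)..Real.pi, Real.cos x ^ 4 = 3 * Real.pi / 8 := by
    rw [cos_rec 2, i2]
    norm_num
    ring
  have i5 : ∫ x in (0 : ℝ)..Real.pi, Real.cos x ^ 5 = 0 := by
    rw [cos_rec 3, i3, mul_zero]
  have d3 : Nat.doubleFactorial (4 - 1) = 3 := by decide
  unfold Pool.Agent.Y57.FD.Mom.usp Pool.Agent.Y57.FD.Mom.normal
  obtain rfl | rfl | rfl | rfl | rfl | rfl : k = 0 ∨ k = 1 ∨ k = 2 ∨ k = 3 ∨ k = 4 ∨ k = 5 := by omega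
  · rw [i0, if_pos (by decide), if_neg (by decide)]
    simp
    field_simp
    norm_num
  · rw [i1, if_neg (by decide), if_neg (by decide)]
    simp
  · rw [i2, if_pos (by decide), if_neg (by decide)]
    simp [Nat.doubleFactorial]
    field_simp
    norm_num
  · rw [i3, if_neg (by decide), if_neg (by decide)]
    simp
  · rw [i4, if_pos (by decide), if_pos (by decide), d3]
    push_cast
    field_simp
    norm_num
  · rw [i5, if_neg (by decide), if_neg (by decide)]
    simp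

lemma haar_poly (g : ℕ) (P : MvPolynomial (Fin g) ℝ) (hP : ∀ j, P.degreeOf j ≤ 5) :
    ∫ θ in Set.univ.pi (fun _ : Fin g => Set.Icc (0 : ℝ) Real.pi),
      MvPolynomial.eval (fun j => 2 * Real.cos (θ j)) P * ∏ j, (2 / Real.pi * Real.sin (θ j) ^ 2) = Pool.Agent.Y57.FD.PR.expect P := by
  have hm : (volume : Measure (Fin g → ℝ)).restrict (Set.univ.pi (fun _ : Fin g => Set.Icc (0 : ℝ) Real.pi)) =
      Measure.pi (fun _ : Fin g => (volume : Measure ℝ).restrict (Set.Icc 0 Real.pi)) := by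
    rw [volume_pi, Measure.restrict_pi_pi]
  rw [hm]
  have h1 : ∀ θ : Fin g → ℝ, MvPolynomial.eval (fun j => 2 * Real.cos (θ j)) P * ∏ j, (2 / Real.pi * Real.sin (θ j) ^ 2) =
      ∑ d ∈ P.support, P.coeff d * ∏ j, ((2 * Real.cos (θ j)) ^ d j * dens (θ j)) := by
    intro θ
    rw [MvPolynomial.eval_eq', sum_mul]
    apply sum_congr rfl
    intro d _
    rw [mul_assoc, ← prod_mul_distrib]
    rfl
  simp only [h1]
  have hint : ∀ k : ℕ, Integrable (fun θ : ℝ => (2 * Real.cos θ) ^ k * dens θ) ((volume : Measure ℝ).restrict (Set.Icc 0 Real.pi)) := by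
    intro k
    have hc : Continuous (fun θ : ℝ => (2 * Real.cos θ) ^ k * dens θ) := by
      unfold dens
      fun_prop
    exact hc.continuousOn.integrableOn_compact isCompact_Icc
  rw [integral_finset_sum]
  · unfold Pool.Agent.Y57.FD.PR.expect
    apply sum_congr rfl
    intro d hd
    rw [integral_const_mul, integral_fintype_prod_eq_prod (fun j (θ : ℝ) => (2 * Real.cos θ) ^ d j * dens θ)]
    congr 1
    apply prod_congr rfl
    intro j _
    exact st_moment (d j) ((MvPolynomial.monomial_le_degreeOf j hd).trans (hP j))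
  · intro d _
    apply Integrable.const_mul
    exact Integrable.fintype_prod (fun j => hint (d j))

lemma curve_eq {g : ℕ} (m : Fin (g * 3) → ℕ) (j : Fin g) : curve m j = Pool.Agent.Y57.FD.PR.block m j := rfl

/-- **The first five moments of the generalised Sato-Tate conjecture for products of elliptic curves with few changed digits.**  Let
a base `b ≥ 2`, the dimension `g ≥ 1`, `δ > 0` and an integer `A ≥ 0` be given.  There are `c > 0` and `y₀` such that for all integers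
`r l`, `K l` (`l < 3 g`), `y` with `2 r l ≤ K l` and `y ≥ y₀` the following holds.

Let `0 ≤ N l < b ^ K l` be arbitrary integers, prescribe for every position `j` a digit `f l j` different from the digit of `N l` in
base `b`, and let `F x` be for every `x` a family of at most `x ^ A` arbitrary sets of primes up to `x`.  If one chooses `r l` of the `K l`
positions and replaces the digits of `N l` at these positions, then for all but at most a proportion `1 / y ^ A` of the choices the vector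
`m` obtained has the following property for all integers `x` with `y ≤ x ≤ exp (c r l)` for all `l`: for all `P ∈ F x`, all `i ≤ 2 g` and
all `e ≤ 5` the sum of `(a_i(A)(p)) ^ e` over the primes `p ∈ P` of good reduction, where `A` is the product of the `g` elliptic curves
`Y ^ 2 = X ^ 3 + m (3 j + 2) X ^ 2 + m (3 j + 1) X + m (3 j)`, is `|P|` times the `e`-th moment of the `i`-th coefficient of the
characteristic polynomial with respect to the Haar measure of `SU(2) ^ g`, with an error of at most `|P| ^ (1 / 2) x ^ δ`. -/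
theorem result (b g : ℕ) (hb : 2 ≤ b) (hg : 1 ≤ g) (δ : ℝ) (hδ : 0 < δ) (A : ℕ) : ∃ c : ℝ, 0 < c ∧ ∃ y₀ : ℕ,
    ∀ (K r : Fin (g * 3) → ℕ) (y : ℕ), (∀ l, 2 * r l ≤ K l) → y₀ ≤ y →
    ∀ N : Fin (g * 3) → ℕ, (∀ l, N l < b ^ K l) → ∀ f : Fin (g * 3) → ℕ → ℕ, (∀ l j, f l j < b ∧ f l j ≠ digit b j (N l)) →
    ∀ F : ℕ → Finset (Finset ℕ), (∀ x, (F x).card ≤ x ^ A) → (∀ x, ∀ P ∈ F x, ∀ p ∈ P, p.Prime ∧ p ≤ x) →
      (exceptions b K r N f (fun m => ∀ x : ℕ, y ≤ x → (∀ l, (x : ℝ) ≤ Real.exp (c * r l)) → GoodMoments δ (F x) x m) : ℝ) ≤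
        1 / (y : ℝ) ^ A * ∏ l, ((K l).choose (r l) : ℝ) := by
  classical
  have hex : ∀ ie : Fin (2 * g + 1) × Fin 6, ∃ P : MvPolynomial (Fin g) ℝ, (∀ j, P.degreeOf j ≤ 5) ∧
      ∀ t : Fin g → ℝ, MvPolynomial.eval t P = eulerCoeff t ie.1 ^ (ie.2 : ℕ) :=
    fun ie => exists_poly g ie.1 ie.2 (by have := ie.2.2; omega)
  choose P hPd hPe using hex
  have hmean : ∀ ie, ∃ C : ℝ, 0 ≤ C ∧ ∀ p : ℕ, p.Prime →
      |Pool.Agent.TH894.NE.mean (g * 3) p (fun m => (∏ j, Pool.Agent.Y57.FD.PR.ind p (Pool.Agent.Y57.FD.PR.block m j)) *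
        MvPolynomial.eval (fun j => Pool.Agent.Y57.FD.PR.nt p (Pool.Agent.Y57.FD.PR.block m j)) (P ie)) -
      Pool.Agent.Y57.FD.PR.expect (P ie)| ≤ C / p := fun ie => Pool.Agent.Y57.FD.PR.mean_eval g (P ie) (hPd ie)
  choose C hC0 hC using hmean
  have hbd : ∀ ie, ∃ W : ℝ, ∀ t : Fin g → ℝ, (∀ j, |t j| ≤ 2) → |MvPolynomial.eval t (P ie)| ≤ W := fun ie =>
    Pool.Agent.Y57.FD.PR.eval_le g (P ie)
  choose W hW using hbd
  have hper : ∀ (ie : Fin (2 * g + 1) × Fin 6) (p : ℕ), p.Prime → ∀ m : Fin (g * 3) → ℕ,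
      (∏ j, Pool.Agent.Y57.FD.PR.ind p (Pool.Agent.Y57.FD.PR.block m j)) *
        MvPolynomial.eval (fun j => Pool.Agent.Y57.FD.PR.nt p (Pool.Agent.Y57.FD.PR.block m j)) (P ie) =
      (∏ j, Pool.Agent.Y57.FD.PR.ind p (Pool.Agent.Y57.FD.PR.block (fun l => m l % p) j)) *
        MvPolynomial.eval (fun j => Pool.Agent.Y57.FD.PR.nt p (Pool.Agent.Y57.FD.PR.block (fun l => m l % p) j)) (P ie) := by
    intro ie p hp m
    have e1 : ∀ j, Pool.Agent.Y57.FD.PR.ind p (Pool.Agent.Y57.FD.PR.block (fun l => m l % p) j) =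
        Pool.Agent.Y57.FD.PR.ind p (Pool.Agent.Y57.FD.PR.block m j) := fun j =>
      (Pool.Agent.Y57.FD.PR.ind_mod p (Pool.Agent.Y57.FD.PR.block m j)).symm
    have e2 : ∀ j, Pool.Agent.Y57.FD.PR.nt p (Pool.Agent.Y57.FD.PR.block (fun l => m l % p) j) =
        Pool.Agent.Y57.FD.PR.nt p (Pool.Agent.Y57.FD.PR.block m j) := fun j =>
      (Pool.Agent.Y57.FD.PR.nt_mod p (Pool.Agent.Y57.FD.PR.block m j)).symm
    show (∏ j, Pool.Agent.Y57.FD.PR.ind p (Pool.Agent.Y57.FD.PR.block m j)) *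
        MvPolynomial.eval (fun j => Pool.Agent.Y57.FD.PR.nt p (Pool.Agent.Y57.FD.PR.block m j)) (P ie) =
      (∏ j, Pool.Agent.Y57.FD.PR.ind p (Pool.Agent.Y57.FD.PR.block (fun l => m l % p) j)) *
        MvPolynomial.eval (fun j => Pool.Agent.Y57.FD.PR.nt p (Pool.Agent.Y57.FD.PR.block (fun l => m l % p) j)) (P ie)
    simp only [e1, e2]
  have hbdd : ∀ (ie : Fin (2 * g + 1) × Fin 6) (p : ℕ), p.Prime → ∀ m : Fin (g * 3) → ℕ,
      |(∏ j, Pool.Agent.Y57.FD.PR.ind p (Pool.Agent.Y57.FD.PR.block m j)) *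
        MvPolynomial.eval (fun j => Pool.Agent.Y57.FD.PR.nt p (Pool.Agent.Y57.FD.PR.block m j)) (P ie)| ≤ W ie := by
    intro ie p hp m
    show |(∏ j, Pool.Agent.Y57.FD.PR.ind p (Pool.Agent.Y57.FD.PR.block m j)) *
        MvPolynomial.eval (fun j => Pool.Agent.Y57.FD.PR.nt p (Pool.Agent.Y57.FD.PR.block m j)) (P ie)| ≤ W ie
    rw [abs_mul, abs_prod]
    have h1 : ∏ j, |Pool.Agent.Y57.FD.PR.ind p (Pool.Agent.Y57.FD.PR.block m j)| ≤ 1 :=
      prod_le_one (fun j _ => abs_nonneg _) (fun j _ => Pool.Agent.Y57.FD.PR.ind_le p _)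
    have h2 := hW ie (fun j => Pool.Agent.Y57.FD.PR.nt p (Pool.Agent.Y57.FD.PR.block m j)) (fun j => Pool.Agent.Y57.FD.PR.nt_le p _)
    calc (∏ j, |Pool.Agent.Y57.FD.PR.ind p (Pool.Agent.Y57.FD.PR.block m j)|) *
          |MvPolynomial.eval (fun j => Pool.Agent.Y57.FD.PR.nt p (Pool.Agent.Y57.FD.PR.block m j)) (P ie)|
        ≤ 1 * |MvPolynomial.eval (fun j => Pool.Agent.Y57.FD.PR.nt p (Pool.Agent.Y57.FD.PR.block m j)) (P ie)| :=
          mul_le_mul_of_nonneg_right h1 (abs_nonneg _)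
      _ ≤ W ie := by rw [one_mul]; exact h2

  obtain ⟨c, hc, y₀, h⟩ := Pool.Agent.Y57.FD.sets b (g * 3) hb (by omega) δ hδ A (Fin (2 * g + 1) × Fin 6)
    (fun ie p m => (∏ j, Pool.Agent.Y57.FD.PR.ind p (Pool.Agent.Y57.FD.PR.block m j)) *
        MvPolynomial.eval (fun j => Pool.Agent.Y57.FD.PR.nt p (Pool.Agent.Y57.FD.PR.block m j)) (P ie))
    (fun ie => Pool.Agent.Y57.FD.PR.expect (P ie)) W C hper hbdd hC
  refine ⟨c, hc, y₀, fun K r y hrK hy N hN f hf F hF hFP => ?_⟩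
  rw [exc_eq]
  refine h K r y hrK hy N hN f hf F hF hFP _ ?_
  intro m hm x hyx hxr S hS i hi e he
  have h1 := hm x hyx hxr S hS (⟨i, by omega⟩, ⟨e, by omega⟩)
  have hE : haarMoment g i e = Pool.Agent.Y57.FD.PR.expect (P (⟨i, by omega⟩, ⟨e, by omega⟩)) := by
    rw [← haar_poly g _ (hPd _)]
    unfold haarMoment
    simp only [hPe]
  have hM : momentSum S i e m = ∑ p ∈ S, (∏ j, Pool.Agent.Y57.FD.PR.ind p (Pool.Agent.Y57.FD.PR.block m j)) *
      MvPolynomial.eval (fun j => Pool.Agent.Y57.FD.PR.nt p (Pool.Agent.Y57.FD.PR.block m j)) (P (⟨i, by omega⟩, ⟨e, by omega⟩)) := by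
    unfold momentSum
    rw [sum_filter]
    apply sum_congr rfl
    intro p hp
    have hpp := (hFP x S hS p hp).1
    by_cases h2 : ∀ j, Smooth p (curve m j)
    · rw [if_pos h2]
      have h3 : ∏ j, Pool.Agent.Y57.FD.PR.ind p (Pool.Agent.Y57.FD.PR.block m j) = 1 := by
        apply prod_eq_one
        intro j _
        unfold Pool.Agent.Y57.FD.PR.ind
        exact if_pos ((smooth_iff p _).1 (h2 j))
      rw [h3, one_mul, hPe]
      have h4 : (fun j => frobTrace p (curve m j)) = fun j => Pool.Agent.Y57.FD.PR.nt p (Pool.Agent.Y57.FD.PR.block m j) := by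
        funext j
        exact frob_eq p hpp _ (h2 j)
      rw [h4]
    · rw [if_neg h2]
      have h2' := h2
      push Not at h2'
      obtain ⟨j, hj⟩ := h2'
      have h3 : ∏ j, Pool.Agent.Y57.FD.PR.ind p (Pool.Agent.Y57.FD.PR.block m j) = 0 := by
        apply prod_eq_zero (mem_univ j)
        unfold Pool.Agent.Y57.FD.PR.ind
        exact if_neg (fun h5 => hj ((smooth_iff p _).2 h5))
      rw [h3, zero_mul]
  rw [hM, hE]
  exact h1

end Pool.Agent.Results.MP_753a9c_nt.FewDigitProducts
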