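import Pool.Agent.Y792.ST.Grp

/-!
# A finite criterion for the Sato-Tate law

Let `G` be a connected compact Lie group, for instance the Sato-Tate group of an abelian variety `A` over a
number field `K` (after a finite extension of `K` it is connected).  A maximal torus of `G` is the torus
`Circle ^ ι` with the group of characters `ℤ ^ ι`, on which the Weyl group `W` acts; let `Φ ⊆ ℤ ^ ι` be the
set of roots.  The conjugacy classes of `G` are the `W`-orbits on the torus, the continuous class functions are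
the continuous `W`-invariant functions, and by Weyl's formula the Haar integral of a class function `f` is
the integral of `f(x) ∏_{a ∈ Φ} (1 - x^a) / |W|` over the torus.

For the primes `v` of `K` let `x_v` be a point of the torus which represents the normalised Frobenius class,
and for a character `l` let `L(l, s)` be the Euler product `∏_v ∏_{w ∈ W} (1 - x_v^(w l) q_v^(-s))⁻¹`, a
product of integral powers of the functions `L(π, s)`, `π` an irreducible representation of `G`.
The classical criterion (Serre) deduces the Sato-Tate law from the absence of zeros and poles of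
all the functions `L(π, s)`, `π ≠ 1`, on the whole line `Re s = 1`.

Here we suppose only that the functions `L(l, s)` have local meromorphic continuations near the points
of the line, with zeros and poles of any orders.  Then there is a *finite* set `F` of characters, which
depends on the group `G` only and neither on `K` nor on the classes, such that the Sato-Tate law holds if and
only if the orders of the functions `L(l, s)`, `l ∈ F`, at the single point `s = 1` are the predicted
ones, and the classes are not degenerate.  (Degenerate means that for some character `k ≠ 0` the numbers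
`x_v^(w k)` tend to `1` in mean square.)
-/

set_option autoImplicit false

namespace Pool.Agent.Results.MP_753a9c_nt.FiniteCriterion

open NumberField IsDedekindDomain Filter Topology MeasureTheory

section

variable {ι : Type} [Fintype ι] [DecidableEq ι]

/-- The value `x^l = ∏ x_i ^ (l_i)` of the character `l ∈ ℤ ^ ι` at the point `x` of the torus. -/
noncomputable def value (x : ι → Circle) (l : ι → ℤ) : Circle := ∏ i, x i ^ l i

/-- `W` is a finite group of automorphisms of the lattice `ℤ ^ ι`: a finite set of injective additive maps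
which contains the identity and is closed under composition. -/
def IsLatticeGroup (W : Finset ((ι → ℤ) → ι → ℤ)) : Prop :=
  id ∈ W ∧ (∀ u ∈ W, ∀ w ∈ W, u ∘ w ∈ W) ∧
    ∀ w ∈ W, Function.Injective w ∧ ∀ a b, w (a + b) = w a + w b

/-- The automorphism of the torus defined by the automorphism `w` of its group of characters: one has
`value (act w x) l = value x (w l)` for all `l`. -/
noncomputable def act (w : (ι → ℤ) → ι → ℤ) (x : ι → Circle) : ι → Circle :=
  fun i => value x (w (Pi.single i 1))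

variable (W : Finset ((ι → ℤ) → ι → ℤ)) (Φ : Finset (ι → ℤ))

/-- The sum `∑_{w ∈ W} x^(w l)` of the values of the characters in the orbit of `l`. -/
noncomputable def orbitSum (l : ι → ℤ) (x : ι → Circle) : ℂ := ∑ w ∈ W, (value x (w l) : ℂ)

/-- Weyl's formula for the Haar integral of a class function: the integral of
`f(x) ∏_{a ∈ Φ} (1 - x^a) / |W|` over the torus. -/
noncomputable def haarIntegral (f : (ι → Circle) → ℂ) : ℂ :=
  (W.card : ℂ)⁻¹ * ∫ t : ι → AddCircle (1 : ℝ), f (fun i => (t i).toCircle) *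
    ∏ a ∈ Φ, (1 - (value (fun i => (t i).toCircle) a : ℂ))
    ∂(Measure.pi fun _ => AddCircle.haarAddCircle)

variable {K : Type} [Field K] [NumberField K]

/-- The average of `φ` over the primes of `K` of norm at most `N`. -/
noncomputable def avg (φ : HeightOneSpectrum (𝓞 K) → ℂ) (N : ℕ) : ℂ :=
  (∑ᶠ w : {w : HeightOneSpectrum (𝓞 K) // Ideal.absNorm w.asIdeal ≤ N}, φ w.1) /
    (Nat.card {w : HeightOneSpectrum (𝓞 K) // Ideal.absNorm w.asIdeal ≤ N} : ℂ)

/-- The Dirichlet average `∑ φ(v) q_v^{-1-ε} / ∑ q_v^{-1-ε}` over the primes of `K`. -/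
noncomputable def dirichletAvg (φ : HeightOneSpectrum (𝓞 K) → ℝ) (ε : ℝ) : ℝ :=
  (∑' v, φ v * (Ideal.absNorm v.asIdeal : ℝ) ^ (-(1 + ε))) /
    ∑' v : HeightOneSpectrum (𝓞 K), (Ideal.absNorm v.asIdeal : ℝ) ^ (-(1 + ε))

/-- The Euler product `L(l, s) = ∏_v (∏_{w ∈ W} (1 - x_v^(w l) q_v^{-s}))⁻¹`. -/
noncomputable def LFunction (x : HeightOneSpectrum (𝓞 K) → ι → Circle) (l : ι → ℤ) (s : ℂ) : ℂ :=
  ∏' v, (∏ w ∈ W, (1 - (value (x v) (w l) : ℂ) * (Ideal.absNorm v.asIdeal : ℂ) ^ (-s)))⁻¹

/-- `Λ` is a meromorphic continuation of `L(l, s)` near the point `1 + iτ`. -/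
def IsContinuation (x : HeightOneSpectrum (𝓞 K) → ι → Circle) (l : ι → ℤ) (τ : ℝ) (Λ : ℂ → ℂ) :
    Prop :=
  MeromorphicAt Λ (1 + τ * Complex.I) ∧
    ∀ᶠ s in 𝓝 ((1 : ℂ) + τ * Complex.I), (1 : ℝ) < s.re → Λ s = LFunction W x l s

/-- `L(l, s)` has order `m` at the point `1 + iτ`. -/
def HasOrder (x : HeightOneSpectrum (𝓞 K) → ι → Circle) (l : ι → ℤ) (τ : ℝ) (m : ℤ) : Prop :=
  ∃ Λ, IsContinuation W x l τ Λ ∧ meromorphicOrderAt Λ (1 + τ * Complex.I) = m

/-- The classes of the `x_v` obey the Sato-Tate law: for every continuous `W`-invariant function `f` on the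
torus, that is, for every continuous class function, the averages of `f(x_v)` tend to the Haar
integral. -/
def SatoTate (x : HeightOneSpectrum (𝓞 K) → ι → Circle) : Prop :=
  ∀ f : (ι → Circle) → ℂ, Continuous f →
    (∀ w ∈ W, ∀ y : ι → Circle, f (act w y) = f y) →
    Tendsto (avg fun v => f (x v)) atTop (𝓝 (haarIntegral W Φ f))

/-- The order of `L(l, s)` at the point `s = 1` is the predicted one: the negative of the Haar integral of
the orbit sum of `l`. -/
def PredictedOrder (x : HeightOneSpectrum (𝓞 K) → ι → Circle) (l : ι → ℤ) : Prop :=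
  ∃ m : ℤ, HasOrder W x l 0 m ∧ (m : ℂ) = -haarIntegral W Φ (orbitSum W l)

/-- The classes are degenerate: for some character `k ≠ 0` the values of the characters `w k`, `w ∈ W`, tend to `1`
in mean square, in the sense of Dirichlet density. -/
def Degenerate (x : HeightOneSpectrum (𝓞 K) → ι → Circle) : Prop :=
  ∃ k : ι → ℤ, k ≠ 0 ∧ Tendsto (dirichletAvg fun v => ∑ w ∈ W,
    ‖(value (x v) (w k) : ℂ) - 1‖ ^ 2) (𝓝[>] 0) (𝓝 0)

end

section Bridge

open Pool.Agent.TH553.ST Pool.Agent.TH553.RS Pool.Agent.W540.BE Pool.Agent.Y792.ST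

variable {K : Type} [Field K] [NumberField K]

theorem avg_eq (g : HeightOneSpectrum (𝓞 K) → ℂ) : avg g = mn g := by
  funext N
  have hs : ∀ v, v ∈ upto K N ↔ Ideal.absNorm v.asIdeal ≤ N := fun v => mem_upto
  let e : {v : HeightOneSpectrum (𝓞 K) // Ideal.absNorm v.asIdeal ≤ N} ≃ (upto K N) :=
    Equiv.subtypeEquivRight fun v => (hs v).symm
  have hfin : Finite {v : HeightOneSpectrum (𝓞 K) // Ideal.absNorm v.asIdeal ≤ N} :=
    Finite.of_equiv _ e.symm
  unfold avg mn
  have h1 : (∑ᶠ v : {v : HeightOneSpectrum (𝓞 K) // Ideal.absNorm v.asIdeal ≤ N}, g v.1) =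
      ∑ v ∈ upto K N, g v := by
    rw [← Finset.sum_coe_sort, ← finsum_eq_sum_of_fintype, ← finsum_comp_equiv e]
    rfl
  have h2 : Nat.card {v : HeightOneSpectrum (𝓞 K) // Ideal.absNorm v.asIdeal ≤ N} =
      (upto K N).card := by
    rw [Nat.card_congr e, Nat.card_eq_fintype_card, Fintype.card_coe]
  rw [h1, h2, Complex.real_smul, div_eq_inv_mul]
  push_cast
  rfl

/-- the two normalisations of Dirichlet averages -/
theorem dir_iff (φ : HeightOneSpectrum (𝓞 K) → ℝ) (c : ℝ) :
    Tendsto (dirichletAvg φ) (𝓝[>] 0) (𝓝 c) ↔ Tendsto (qt (nm K) φ) (𝓝[>] 0) (𝓝 c) := by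
  have h0 : ∀ᶠ ε : ℝ in 𝓝[>] 0, dirichletAvg φ ε = qt (nm K) φ ε / qt (nm K) (fun _ => 1) ε := by
    filter_upwards [Pool.Agent.H341R2.lam_tendsto.eventually_gt_atTop 0] with ε hε
    unfold qt dirichletAvg EP
    rw [div_div_div_cancel_right₀ hε.ne']
    congr 1
    refine tsum_congr fun v => ?_
    rw [one_mul]
    rfl
  have h1 : Tendsto (qt (nm K) fun _ => (1 : ℝ)) (𝓝[>] 0) (𝓝 1) := (sysF K).one
  constructor
  · intro h
    have h2 := h.mul h1
    rw [mul_one] at h2
    refine h2.congr' ?_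
    filter_upwards [h0, h1.eventually_ne one_ne_zero] with ε h3 h4
    rw [h3, div_mul_cancel₀ _ h4]
  · intro h
    have h2 := h.div h1 one_ne_zero
    rw [div_one] at h2
    refine h2.congr' ?_
    filter_upwards [h0] with ε h3
    rw [h3]
    rfl

set_option linter.unusedSectionVars false

variable {ι : Type} [Fintype ι] [DecidableEq ι] {W : Finset ((ι → ℤ) → ι → ℤ)}
  (hW : IsLG W) {Φ : Finset (ι → ℤ)}

include hW

theorem haar_eq (f : (ι → Circle) → ℂ) : haarIntegral W Φ f =
    (Fintype.card (lgG hW) : ℂ)⁻¹ * ∫ t : ι → AddCircle (1 : ℝ), f (cT ι t) * DD Φ t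
      ∂(Measure.pi fun _ => AddCircle.haarAddCircle) := by
  have h1 : ∀ t : ι → AddCircle (1 : ℝ), (fun i => (t i).toCircle) = cT ι t := fun t => by
    funext i
    exact (cT_apply t i).symm
  unfold haarIntegral
  rw [card_lg hW]
  congr 2
  funext t
  rw [DD_apply, h1 t]
  congr 1
  refine Finset.prod_congr rfl fun a _ => ?_
  rw [mF_eq]
  rfl

theorem LF_eq' (x : HeightOneSpectrum (𝓞 K) → ι → Circle) (l : ι → ℤ) (s : ℂ) :
    LFunction W x l s = LF (lgG hW) x l s := by
  unfold LFunction LF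
  refine tprod_congr fun v => ?_
  rw [prod_lg hW (fun w => 1 - (value (x v) (w l) : ℂ) * (Ideal.absNorm v.asIdeal : ℂ) ^ (-s))]
  rfl

theorem cont_iff (x : HeightOneSpectrum (𝓞 K) → ι → Circle) (l : ι → ℤ) (τ : ℝ) (Λ : ℂ → ℂ) :
    IsContinuation W x l τ Λ ↔ Cn (lgG hW) x l τ Λ := by
  unfold IsContinuation Cn
  simp only [LF_eq' hW]

theorem law_iff (x : HeightOneSpectrum (𝓞 K) → ι → Circle) :
    SatoTate W Φ x ↔ LawST (lgG hW) Φ x := by
  unfold SatoTate LawST
  refine forall_congr' fun f => forall_congr' fun _ => ?_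
  have h1 : (∀ w ∈ W, ∀ y : ι → Circle, f (act w y) = f y) ↔
      ∀ (w : lgG hW) y, f (ac (w : (ι → ℤ) ≃ₗ[ℤ] (ι → ℤ)) y) = f y := by
    constructor
    · intro h w y
      exact h _ w.2 y
    · intro h w hw y
      obtain ⟨e, he⟩ := exists_equiv hW hw
      rw [← he]
      exact h e y
  rw [h1]
  refine forall_congr' fun _ => ?_
  rw [avg_eq, haar_eq hW]
  rfl

theorem order_unique {x : HeightOneSpectrum (𝓞 K) → ι → Circle} {m : (ι → ℤ) → ℝ → ℤ}
    (hm : Od (lgG hW) x m) {l : ι → ℤ} {τ : ℝ} {n : ℤ} (h : HasOrder W x l τ n) :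
    n = m l τ := by
  obtain ⟨Λ, h1, h2⟩ := h
  obtain ⟨n', h3, h4⟩ := order_LF ((cont_iff hW x l τ Λ).1 h1)
  rw [h2] at h3
  have h5 : n = n' := by exact_mod_cast h3
  have h6 := tendsto_nhds_unique h4 (hm.mean l τ)
  rw [← h5] at h6
  have h7 : (n : ℝ) = m l τ := by linarith
  exact_mod_cast h7

theorem predicted_iff (hΦ : ∀ w ∈ W, ∀ a ∈ Φ, w a ∈ Φ)
    {x : HeightOneSpectrum (𝓞 K) → ι → Circle} {m : (ι → ℤ) → ℝ → ℤ} (hm : Od (lgG hW) x m)
    (l : ι → ℤ) : PredictedOrder W Φ x l ↔ m l 0 = -wl Φ l := by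
  have h0 : haarIntegral W Φ (orbitSum W l) = (wl Φ l : ℂ) := by
    rw [haar_eq hW]
    have h1 := integral_osT (W := lgG hW) (P := Φ) (fun w a ha => hΦ _ w.2 a ha) l
    rw [← h1]
    congr 2
    funext t
    congr 1
    exact sum_lg hW fun w => (value (cT ι t) (w l) : ℂ)
  unfold PredictedOrder
  rw [h0]
  constructor
  · rintro ⟨n, h1, h2⟩
    rw [← order_unique hW hm h1]
    exact_mod_cast h2
  · intro h
    obtain ⟨Λ, h1, h2⟩ := hm.cont l 0
    refine ⟨m l 0, ⟨Λ, (cont_iff hW x l 0 Λ).2 h1, h2⟩, ?_⟩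
    rw [h]
    push_cast
    rfl

theorem deg_iff (x : HeightOneSpectrum (𝓞 K) → ι → Circle) :
    Degenerate W x ↔ Deg (lgG hW) x := by
  unfold Degenerate Deg
  refine exists_congr fun k => and_congr_right fun _ => ?_
  rw [dir_iff]
  have h1 : (fun v => ∑ w ∈ W, ‖(value (x v) (w k) : ℂ) - 1‖ ^ 2) = gp (lgG hW) x k := by
    funext v
    exact sum_lg hW fun w => ‖(value (x v) (w k) : ℂ) - 1‖ ^ 2
  rw [h1]

end Bridge

/-- **The finite criterion.**  Let `W` be a finite group of automorphisms of `ℤ ^ ι`, and let `Φ ⊆ ℤ ^ ι` be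
finite, stable under `W`, with `0 ∉ Φ`: in particular the Weyl group and the set of roots of any
connected compact Lie group `G` with a maximal torus `Circle ^ ι`.  There is a finite set `F` of characters such
that, for all number fields `K` and all families of points `x_v` of the torus, `v` the primes of `K`: if

* all functions `L(l, s)` have meromorphic continuations near all points `1 + iτ`, of any orders, and
* these orders are zero if `l ≠ 0` is fixed by `W` (the characters of degree one of `G`; if `G` is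
  semisimple there is no such `l`),

then the Sato-Tate law holds if and only if for the finitely many `l ∈ F` the order of `L(l, s)` at the
single point `s = 1` is the predicted one, and the classes are not degenerate. -/
theorem result (ι : Type) [Fintype ι] [DecidableEq ι] (W : Finset ((ι → ℤ) → ι → ℤ))
    (hW : IsLatticeGroup W) (Φ : Finset (ι → ℤ)) (h0 : (0 : ι → ℤ) ∉ Φ)
    (hΦ : ∀ w ∈ W, ∀ a ∈ Φ, w a ∈ Φ) :
    ∃ F : Finset (ι → ℤ), ∀ (K : Type) [Field K] [NumberField K]
      (x : HeightOneSpectrum (𝓞 K) → ι → Circle),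
      (∀ (l : ι → ℤ) (τ : ℝ), ∃ Λ, IsContinuation W x l τ Λ) →
      (∀ l : ι → ℤ, l ≠ 0 → (∀ w ∈ W, w l = l) → ∀ τ : ℝ, HasOrder W x l τ 0) →
      (SatoTate W Φ x ↔ (∀ l ∈ F, PredictedOrder W Φ x l) ∧ ¬ Degenerate W x) := by
  have hW' : Pool.Agent.Y792.ST.IsLG W := hW
  obtain ⟨F, hF⟩ := Pool.Agent.Y792.ST.main (W := Pool.Agent.Y792.ST.lgG hW') (P := Φ) h0
    (fun w a ha => hΦ _ w.2 a ha)
  refine ⟨F, fun K _ _ x hc hfix => ?_⟩
  obtain ⟨m, hm⟩ := Pool.Agent.Y792.ST.exists_Od (W := Pool.Agent.Y792.ST.lgG hW') (z := x)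
    fun l τ => by
      obtain ⟨Λ, hΛ⟩ := hc l τ
      exact ⟨Λ, (cont_iff hW' x l τ Λ).1 hΛ⟩
  have h1 := hF K x m hm fun l hl hw τ => (order_unique hW' hm (hfix l hl (fun w hw1 => by
    obtain ⟨e, he⟩ := Pool.Agent.Y792.ST.exists_equiv hW' hw1
    rw [← he]
    exact hw e) τ)).symm
  rw [law_iff hW', h1, deg_iff hW']
  refine and_congr_left fun _ => forall_congr' fun l => imp_congr_right fun _ => ?_
  exact (predicted_iff hW' hΦ hm l).symm

end Pool.Agent.Results.MP_753a9c_nt.FiniteCriterion
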