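import Pool.Agent.Y139.IM.Final

/-!
# The coefficients of the Euler factors of abelian varieties and sets of capacity less than one

`X` is a smooth projective variety over a number field `K` and `N` its `i`-th Betti number.  In the problem
`K = ℚ` and `X = A` is an abelian variety of dimension `g`: then `H^i(A) = Λ^i H^1(A)`, `N = binom(2g, i)`, and
`t p`, the normalized trace of Frobenius on `H^i(A)`, is `(-1)^i a_i(A)(p)`.  `L(H^{⊗ r}, s)` is the
`L`-function of the `r`-th tensor power of `H = H^i(X)`, and
`x_r(ε) = log |L(H^{⊗ r}, r i / 2 + 1 + ε)| / log(1/ε)`.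
The definitions are in `Pool.Agent.Y139.IM.Defs`, `Pool.Agent.Y139.SM.GDefs`, `Pool.Agent.W353.EH.Defs` and
`Pool.Agent.W353.EF.Defs`.
-/

set_option autoImplicit false

namespace Pool.Agent.Results.MP_753a9c_nt.IntegralMoments

open NumberField IsDedekindDomain Filter Topology Polynomial
open Pool.Agent.W353.EH (size)
open Pool.Agent.Y139.SM (IsPowerSystem)
open Pool.Agent.Y139.IM (IsTrace avg proportion IntegralOrders Continuations SmallCapacity)

/-- **Integral orders and the distribution of the Frobenius traces.**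
* Let `S` be a set of real numbers of capacity (Chebyshev constant) less than `1`.  There are `n`, `δ > 0`
  and `C`, depending only on `S` and on `N`, such that for all `K`, `X` and `i`:
  - (no hypothesis)  for all `η > 0` and all small `ε > 0`: the proportion of the primes with
    `t v ∉ S` (with the weights `q_v^{-1-ε}`) is at least `δ`, or one of the numbers `x_r(ε)`, `r < 2 n - 1`, has a
    distance more than `η` from the integers, or there is a polynomial `Q ≠ 0` with integral coefficients of
    absolute value at most `C`, of degree less than `n`, such that the mean value of `Q(t v)²` is at most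
    `C η`;
  - if for all `r` the numbers `x_r(ε)` tend to integers (this is the case if the functions
    `L(H^{⊗ r}, s)` have meromorphic continuations to neighbourhoods of the edge), then the lower Dirichlet
    density of the primes with `t v ∉ S` is at least `δ`, or there is a monic integral polynomial `P` of degree
    less than `n`, all of whose roots are real and of absolute value at most `N`, such that `t v` is
    near a root of `P` for all primes outside a set of density zero.
* This applies to every interval `S` of length less than `4`.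
* Let `N = 2`, for example an elliptic curve over `K` and `i = 1`.  For every interval `(a, b)` in
  `[-2, 2]` there is `δ > 0` such that for all `K` and `X` for which the `x_r(ε)` tend to integers: the lower
  density of the primes with `a < t v < b` is at least `δ`, or, for some `m`, `t v` is near one of the
  numbers `2 cos(2 π j / m)` for all primes outside a set of density zero. -/
theorem result :
    (∀ (K : Type) [Field K] [NumberField K] (l d i N : ℕ) (X : Set (MvPolynomial (Fin l) (𝓞 K))),
      i ≤ 2 * d → Continuations X d i N → IntegralOrders X d i N) ∧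
    (∀ S : Set ℝ, SmallCapacity S → ∀ N : ℕ,
      ∃ (n : ℕ) (δ C : ℝ), 0 < n ∧ 0 < δ ∧ 0 < C ∧ ∀ (K : Type) [Field K] [NumberField K]
        (l d i : ℕ) (X : Set (MvPolynomial (Fin l) (𝓞 K))) (t : HeightOneSpectrum (𝓞 K) → ℝ),
        i ≤ 2 * d → IsTrace X d i N t →
        (∀ B : ℕ → HeightOneSpectrum (𝓞 K) → ℂ[X],
          (∀ r < 2 * n - 1, IsPowerSystem X d i N r
            (1 : Representation ℂ Gal(AlgebraicClosure K/K) (Fin 1 → ℂ)) (B r)) →
          ∀ η : ℝ, 0 < η → ∀ᶠ ε : ℝ in 𝓝[>] 0,
            δ ≤ proportion {v | t v ∉ S} ε ∨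
            (∃ r < 2 * n - 1, ∀ k : ℤ, η < |size (r * i) 0 (B r) ε - k|) ∨
            ∃ Q : ℤ[X], Q ≠ 0 ∧ Q.natDegree < n ∧ (∀ j, |((Q.coeff j : ℤ) : ℝ)| ≤ C) ∧
              avg (fun v => (Q.map (Int.castRingHom ℝ)).eval (t v) ^ 2) ε ≤ C * η) ∧
        (IntegralOrders X d i N →
          (∀ᶠ ε : ℝ in 𝓝[>] 0, δ ≤ proportion {v | t v ∉ S} ε) ∨
          ∃ P : ℤ[X], P.Monic ∧ P.natDegree < n ∧
            (∀ z : ℂ, (P.map (Int.castRingHom ℂ)).eval z = 0 → ∃ x : ℝ, |x| ≤ N ∧ z = x) ∧
            ∀ η : ℝ, 0 < η → Tendsto (proportion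
              {v | ∀ x : ℝ, (P.map (Int.castRingHom ℝ)).eval x = 0 → η ≤ |t v - x|})
              (𝓝[>] 0) (𝓝 0))) ∧
    (∀ a b : ℝ, b - a < 4 → SmallCapacity (Set.Icc a b)) ∧
    ∀ a b : ℝ, -2 ≤ a → a < b → b ≤ 2 →
      ∃ δ : ℝ, 0 < δ ∧ ∀ (K : Type) [Field K] [NumberField K]
        (l d i : ℕ) (X : Set (MvPolynomial (Fin l) (𝓞 K))) (t : HeightOneSpectrum (𝓞 K) → ℝ),
        i ≤ 2 * d → IsTrace X d i 2 t → IntegralOrders X d i 2 →
        (∀ᶠ ε : ℝ in 𝓝[>] 0, δ ≤ proportion {v | a < t v ∧ t v < b} ε) ∨
        ∃ m : ℕ, 0 < m ∧ ∀ η : ℝ, 0 < η → Tendsto (proportion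
          {v | ∀ j : ℕ, η ≤ |t v - 2 * Real.cos (2 * Real.pi * j / m)|}) (𝓝[>] 0) (𝓝 0) :=
  ⟨fun _ _ _ _ _ _ _ _ hi h => Pool.Agent.Y139.IM.integral_of_cont hi h,
    fun _ hS N => Pool.Agent.Y139.IM.main hS N,
    fun _ _ h => Pool.Agent.Y139.IM.smallCapacity_Icc h,
    fun _ _ ha hab hb => Pool.Agent.Y139.IM.main_two ha hab hb⟩

end Pool.Agent.Results.MP_753a9c_nt.IntegralMoments
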