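import Pool.Agent.Y798.PC.Jt
import Pool.Agent.Y798.PC.Ms

/-!
# Products of elliptic curves: the Sato-Tate law of the pairs and meromorphy give the joint law

Let `E_1, …, E_n` be elliptic curves over a number field `K` without complex multiplication, no two of them
isogenous up to a twist; the Sato-Tate group of `E_1 × ⋯ × E_n` is `SU(2)^n` (over `ℚ` and over `K`).  The
Frobenius class at the prime `v` is given by a point `θ_v` of the torus `(ℝ/ℤ)^n`, up to the signs of its
coordinates: the normalised Frobenius eigenvalues of `E_i` are `exp(±2πi θ_{v,i})`.  For `a ∈ ℕ^n` let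
`L(a, s)` be the `L`-function of `Sym^{a_1} E_1 ⊗ ⋯ ⊗ Sym^{a_n} E_n`, normalised so that its edge is the line
`Re s = 1`.

The Sato-Tate law for one curve over `ℚ` and for pairs of curves over `ℚ` are theorems (Clozel, Harris,
Shepherd-Barron, Taylor; Harris); for three or more curves the joint law is open, and by the criterion of Serre
it is equivalent to: for `a ≠ 0` the functions `L(a, s)` have continuations to `Re s ≥ 1` without zeros and
poles.  Here we suppose that the `L(a, s)` have local meromorphic continuations, with zeros and poles of any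
orders, and show that then the joint law follows from the laws of the pairs; for the curves
themselves it is enough that the orders of `L(Sym² E_i, s)` and `L(Sym⁴ E_i, s)` at `s = 1` are zero,
and for the pairs it is enough that the order of `L(Sym² E_i ⊗ Sym² E_j, s)` at `s = 1` is zero.

The theorem is proved for arbitrary families `θ_v`.  The proof: a possible joint moment `m(a)` with the least
support is `±1` and gives an equality `χ_{a'}(x') = ±χ_{a_l}(x_l)` almost everywhere; the integrality of all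
other moments, applied to the squares of both sides, then leads to `χ_2(x_i) = χ_2(x_j)`.
-/

set_option autoImplicit false

namespace Pool.Agent.Results.MP_753a9c_nt.PairsOfCurves

open NumberField IsDedekindDomain Filter Topology MeasureTheory UnitAddTorus

section

variable {n : ℕ}

/-- `f` is a class function on `SU(2)^n`: it does not change if the signs of coordinates are changed. -/
def IsClassFunction (f : UnitAddTorus (Fin n) → ℝ) : Prop :=
  ∀ (s : Fin n → ℤˣ) (x : UnitAddTorus (Fin n)), f (fun i => (s i : ℤ) • x i) = f x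

/-- The mean value of a class function for the Haar measure of `SU(2)^n` (Weyl's formula):
`∫ f(x) ∏_i |1 - exp(4πi x_i)|² / 2`; the factors are `2 sin² (2π x_i)`. -/
noncomputable def haarMean (f : UnitAddTorus (Fin n) → ℝ) : ℝ :=
  ∫ x, f x * ∏ i, (‖1 - (fourier 2 (x i) : ℂ)‖ ^ 2 / 2)
    ∂(Measure.pi fun _ : Fin n => AddCircle.haarAddCircle)

/-- `L`, given for `Re s > 1`, has a meromorphic continuation to a neighbourhood of `s₀`. -/
def ContinuesTo (L : ℂ → ℂ) (s₀ : ℂ) : Prop :=
  ∃ Λ : ℂ → ℂ, MeromorphicAt Λ s₀ ∧ ∀ᶠ s in 𝓝 s₀, 1 < s.re → Λ s = L s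

/-- `L` has a meromorphic continuation to a neighbourhood of `s₀`, and its order at `s₀` is zero. -/
def HasOrderZero (L : ℂ → ℂ) (s₀ : ℂ) : Prop :=
  ∃ Λ : ℂ → ℂ, MeromorphicAt Λ s₀ ∧ (∀ᶠ s in 𝓝 s₀, 1 < s.re → Λ s = L s) ∧
    meromorphicOrderAt Λ s₀ = 0

end

section

variable {K : Type} [Field K] [NumberField K] {n : ℕ}

/-- The average of `f` over the primes of `K` of norm at most `N`. -/
noncomputable def avg (f : HeightOneSpectrum (𝓞 K) → ℝ) (N : ℕ) : ℝ :=
  (∑ᶠ w : {w : HeightOneSpectrum (𝓞 K) // Ideal.absNorm w.asIdeal ≤ N}, f w.1) /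
    (Nat.card {w : HeightOneSpectrum (𝓞 K) // Ideal.absNorm w.asIdeal ≤ N} : ℝ)

/-- The Dirichlet average `∑ f(v) q_v^{-1-ε} / ∑ q_v^{-1-ε}` over the primes of `K`. -/
noncomputable def dirichletAvg (f : HeightOneSpectrum (𝓞 K) → ℝ) (ε : ℝ) : ℝ :=
  (∑' v : HeightOneSpectrum (𝓞 K), f v * (Ideal.absNorm v.asIdeal : ℝ) ^ (-(1 + ε))) /
    ∑' v : HeightOneSpectrum (𝓞 K), (Ideal.absNorm v.asIdeal : ℝ) ^ (-(1 + ε))

variable (θ : HeightOneSpectrum (𝓞 K) → UnitAddTorus (Fin n))

/-- The Euler product of `Sym^{a_1} E_1 ⊗ ⋯ ⊗ Sym^{a_n} E_n`: the eigenvalues at `v` are the numbers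
`∏_i exp(2πi (a_i - 2 j_i) θ_{v,i})`, `0 ≤ j_i ≤ a_i`. -/
noncomputable def LSym (a : Fin n → ℕ) (s : ℂ) : ℂ :=
  ∏' v : HeightOneSpectrum (𝓞 K), (∏ j ∈ Fintype.piFinset fun i => Finset.range (a i + 1),
    (1 - mFourier (fun i => (a i : ℤ) - 2 * j i) (θ v) *
      (Ideal.absNorm v.asIdeal : ℂ) ^ (-s)))⁻¹

/-- The `i`-th family is of finite type: for some `N > 0` the Dirichlet average of `|exp(2πi N θ_{v,i}) - 1|²` tends
to `0`. -/
def IsFiniteType (i : Fin n) : Prop :=
  ∃ N : ℕ, 0 < N ∧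
    Tendsto (dirichletAvg fun v => ‖(fourier (N : ℤ) (θ v i) : ℂ) - 1‖ ^ 2) (𝓝[>] 0) (𝓝 0)

/-- The Sato-Tate law for `SU(2)^n` in the sense of Dirichlet density. -/
def DirichletSatoTate : Prop :=
  ∀ f : UnitAddTorus (Fin n) → ℝ, Continuous f → IsClassFunction f →
    Tendsto (dirichletAvg fun v => f (θ v)) (𝓝[>] 0) (𝓝 (haarMean f))

/-- The Sato-Tate law for `SU(2)^n` in the sense of natural density. -/
def SatoTate : Prop :=
  ∀ f : UnitAddTorus (Fin n) → ℝ, Continuous f → IsClassFunction f →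
    Tendsto (avg fun v => f (θ v)) atTop (𝓝 (haarMean f))

/-- `σ` is a Frobenius element at the prime `v` of `K`. -/
def IsFrobenius (v : HeightOneSpectrum (𝓞 K)) (σ : Gal(AlgebraicClosure K/K)) : Prop :=
  ∃ Q : Ideal (𝓞 (AlgebraicClosure K)), Q.IsMaximal ∧
    Q.comap (algebraMap (𝓞 K) (𝓞 (AlgebraicClosure K))) = v.asIdeal ∧
    ∀ z : 𝓞 (AlgebraicClosure K), σ • z - z ^ Ideal.absNorm v.asIdeal ∈ Q

/-- `ψ` is an irreducible Artin representation: it is not zero, only the scalars commute with it, and it is trivial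
on an open subgroup. -/
def IsIrredArtin {m : ℕ} (ψ : Gal(AlgebraicClosure K/K) →* Matrix.unitaryGroup (Fin m) ℂ) : Prop :=
  m ≠ 0 ∧ (∀ A : Matrix (Fin m) (Fin m) ℂ, (∀ g, (ψ g : Matrix (Fin m) (Fin m) ℂ) * A = A * ψ g) →
    ∃ c : ℂ, A = c • (1 : Matrix (Fin m) (Fin m) ℂ)) ∧
  ∃ U : Subgroup Gal(AlgebraicClosure K/K), IsOpen (U : Set Gal(AlgebraicClosure K/K)) ∧
    ∀ u ∈ U, ψ u = 1

variable (σ : HeightOneSpectrum (𝓞 K) → Gal(AlgebraicClosure K/K))

/-- The twist of `L(a, s)` by `ψ`: the eigenvalues of the first representation are multiplied with the matrix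
`ψ(σ_v)`. -/
noncomputable def LTwist {m : ℕ}
    (ψ : Gal(AlgebraicClosure K/K) →* Matrix.unitaryGroup (Fin m) ℂ) (a : Fin n → ℕ) (s : ℂ) : ℂ :=
  ∏' v : HeightOneSpectrum (𝓞 K), (∏ j ∈ Fintype.piFinset fun i => Finset.range (a i + 1),
    Matrix.det (1 - ((Ideal.absNorm v.asIdeal : ℂ) ^ (-s) *
      mFourier (fun i => (a i : ℤ) - 2 * j i) (θ v)) •
        (ψ (σ v) : Matrix (Fin m) (Fin m) ℂ)))⁻¹

/-- The twists of all `L(a, s)` by nontrivial irreducible Artin representations have meromorphic continuations to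
neighbourhoods of the points `1 + iτ`, with zeros and poles of any orders. -/
def TwistsContinue : Prop :=
  ∀ (m : ℕ) (ψ : Gal(AlgebraicClosure K/K) →* Matrix.unitaryGroup (Fin m) ℂ),
    IsIrredArtin ψ → (∃ g, ψ g ≠ 1) → ∀ (a : Fin n → ℕ) (τ : ℝ),
      ContinuesTo (LTwist θ σ ψ a) (1 + τ * Complex.I)

/-- The Sato-Tate law jointly with the Frobenius elements in the finite quotients of the Galois group: the classes
in `SU(2)^n` and in the finite quotient are independent, in the sense of natural density. -/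
def JointSatoTate : Prop :=
  ∀ (U : Subgroup Gal(AlgebraicClosure K/K)) [U.Normal],
    IsOpen (U : Set Gal(AlgebraicClosure K/K)) →
    ∀ (f : UnitAddTorus (Fin n) → ℝ) (e : Gal(AlgebraicClosure K/K) ⧸ U → ℝ), Continuous f →
      IsClassFunction f → (∀ g h, e (h * g * h⁻¹) = e g) →
      Tendsto (avg fun v => f (θ v) * e (QuotientGroup.mk (σ v))) atTop
        (𝓝 (haarMean f * ((Nat.card (Gal(AlgebraicClosure K/K) ⧸ U) : ℝ)⁻¹ * ∑ᶠ q, e q)))

/-- `y_w` lies in the class of `θ_v` for all but finitely many primes `w` of `F` of residue degree one over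
the prime `v` of `K` below `w`. -/
def BaseChange {F : Type} [Field F] [NumberField F] [Algebra K F]
    (y : HeightOneSpectrum (𝓞 F) → UnitAddTorus (Fin n)) : Prop :=
  ∃ S : Finset (HeightOneSpectrum (𝓞 F)), ∀ w, w ∉ S → ∀ v : HeightOneSpectrum (𝓞 K),
    w.asIdeal.comap (algebraMap (𝓞 K) (𝓞 F)) = v.asIdeal →
    Ideal.absNorm w.asIdeal = Ideal.absNorm v.asIdeal →
      ∃ s : Fin n → ℤˣ, y w = fun i => (s i : ℤ) • θ v i

end

section Bridge

set_option linter.unusedSectionVars false

open Pool.Agent.Y798.FC Pool.Agent.Y798.PC Pool.Agent.TH553.ST Pool.Agent.TH553.RS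
  Pool.Agent.W540.BE Pool.Agent.W401.Cheb

variable {n : ℕ} {K : Type} [Field K] [NumberField K]
  {θ : HeightOneSpectrum (𝓞 K) → UnitAddTorus (Fin n)}
  {σ : HeightOneSpectrum (𝓞 K) → Gal(AlgebraicClosure K/K)}

theorem avg_eq (f : HeightOneSpectrum (𝓞 K) → ℝ) : avg f = mn f := by
  funext N
  have hs : ∀ v, v ∈ upto K N ↔ Ideal.absNorm v.asIdeal ≤ N := fun v => mem_upto
  let e : {v : HeightOneSpectrum (𝓞 K) // Ideal.absNorm v.asIdeal ≤ N} ≃ (upto K N) :=
    Equiv.subtypeEquivRight fun v => (hs v).symm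
  have hfin : Finite {v : HeightOneSpectrum (𝓞 K) // Ideal.absNorm v.asIdeal ≤ N} :=
    Finite.of_equiv _ e.symm
  unfold avg mn
  have h1 : (∑ᶠ v : {v : HeightOneSpectrum (𝓞 K) // Ideal.absNorm v.asIdeal ≤ N}, f v.1) =
      ∑ v ∈ upto K N, f v := by
    rw [← Finset.sum_coe_sort, ← finsum_eq_sum_of_fintype, ← finsum_comp_equiv e]
    rfl
  have h2 : Nat.card {v : HeightOneSpectrum (𝓞 K) // Ideal.absNorm v.asIdeal ≤ N} =
      (upto K N).card := by
    rw [Nat.card_congr e, Nat.card_eq_fintype_card, Fintype.card_coe]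
  rw [h1, h2, smul_eq_mul, div_eq_inv_mul]

theorem haarMean_eq (f : UnitAddTorus (Fin n) → ℝ) : haarMean f = rm (sgW n) (sgR n) f := by
  unfold haarMean rm
  rw [Wd.card_W, ← integral_const_mul]
  refine integral_congr_ae (Eventually.of_forall fun x => ?_)
  simp only
  rw [Wd.dens_eq, Finset.prod_div_distrib, Finset.prod_const, Finset.card_univ, Fintype.card_fin]
  unfold Wd.ph
  push_cast
  ring

theorem class_inv {f : UnitAddTorus (Fin n) → ℝ} (hf : IsClassFunction f) :
    ∀ w ∈ sgW n, ∀ x, f (act w x) = f x := by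
  rintro w ⟨s, h⟩ x
  rw [← hf s x]
  congr 1
  funext i
  exact Wd.act_eq h x i

theorem dirichlet_of_moms (h : Moms θ) : DirichletSatoTate θ := by
  intro f hf hfc
  have h1 := dlaw_of_mom ms h (fun x => (f x : ℂ)) (Complex.continuous_ofReal.comp hf)
    fun w hw x => by rw [class_inv hfc w hw]
  obtain ⟨C, hC⟩ := isCompact_univ.exists_bound_of_continuousOn (f := f) hf.continuousOn
  have h2 : (Nat.card (sgW n) : ℂ)⁻¹ * ∫ x, ((f x : ℝ) : ℂ) * (dens (sgR n) x : ℂ) ∂(vol (Fin n)) =
      ((haarMean f : ℝ) : ℂ) := by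
    rw [haarMean_eq, ← wm_real]
    rfl
  rw [h2] at h1
  exact avg_of_cE (fun v => hC _ (Set.mem_univ _)) h1

theorem moms_of_dirichlet (h : DirichletSatoTate θ) : Moms θ := by
  intro a ha
  have hc := continuous_symT a
  have hcr : Continuous fun x => (symT a x).re := Complex.continuous_re.comp hc
  have hreal : ∀ x, (((symT a x).re : ℝ) : ℂ) = symT a x := fun x =>
    Complex.conj_eq_iff_re.1 (symT_conj a x)
  have h1 : Tendsto (Pool.Agent.Y139.ID.avg fun v => (symT a (θ v)).re) (𝓝[>] 0)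
      (𝓝 (haarMean fun x => (symT a x).re)) :=
    h _ hcr fun s x => by
      have e : symT a (fun i => (s i : ℤ) • x i) = symT a x := by
        unfold symT
        exact Finset.prod_congr rfl fun i _ => chi1_units _ _ _
      rw [e]
  have h2 : haarMean (fun x => (symT a x).re) = 0 := by
    have h3 : ((haarMean (fun x => (symT a x).re) : ℝ) : ℂ) = 0 := by
      rw [haarMean_eq, ← wm_real]
      simp only [hreal]
      exact wmS_symT ha
    exact_mod_cast h3
  rw [h2] at h1
  obtain ⟨C, hC⟩ := isCompact_univ.exists_bound_of_continuousOn (f := symT a) hc.continuousOn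
  have h3 := (Complex.continuous_ofReal.tendsto _).comp h1
  rw [Complex.ofReal_zero] at h3
  refine h3.congr' ?_
  filter_upwards [Pool.Agent.Y139.ID.good_ev (K := K)] with ε hε
  simp only [Function.comp]
  refine Complex.ext ?_ ?_
  · rw [Complex.ofReal_re, cE_re hε (B := C) fun v => hC _ (Set.mem_univ _)]
  · rw [Complex.ofReal_im, cE_im hε (B := C) fun v => hC _ (Set.mem_univ _),
      Pool.Agent.Y139.ID.avg_eq]
    have h4 : ∀ x, (symT a x).im = 0 := fun x => Complex.conj_eq_iff_im.1 (symT_conj a x)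
    simp only [h4, mul_zero, tsum_zero]

theorem zero_iff (L : ℂ → ℂ) (s₀ : ℂ) : HasOrderZero L s₀ ↔ PoleAt L s₀ 0 := by
  unfold HasOrderZero PoleAt
  refine exists_congr fun Λ => and_congr Iff.rfl (and_congr Iff.rfl ?_)
  rw [neg_zero]
  rfl

theorem nat_of_dir (h : DirichletSatoTate θ)
    (hc : ∀ (a : Fin n → ℕ) (τ : ℝ), ContinuesTo (LSym θ a) (1 + τ * Complex.I)) :
    SatoTate θ := by
  intro f hf hfc
  have h0 := moms_of_dirichlet h
  have h1 := nlaw_of_mom ms (θ := θ) (fun a ha => nat_mom ms (dlaw_of_mom ms h0) hc ha)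
    (f := fun x => (f x : ℂ)) (Complex.continuous_ofReal.comp hf)
    fun w hw x => by rw [class_inv hfc w hw]
  unfold wmS at h1
  rw [wm_real, ← haarMean_eq] at h1
  have h2 := (Complex.continuous_re.tendsto _).comp h1
  rw [Complex.ofReal_re] at h2
  rw [avg_eq]
  refine h2.congr fun N => ?_
  simp only [Function.comp]
  rw [re_mn]
  simp only [Complex.ofReal_re]

theorem dir_of_nat (h : SatoTate θ) : DirichletSatoTate θ := by
  intro f hf hfc
  have h1 := h f hf hfc
  rw [avg_eq] at h1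
  obtain ⟨C, hC⟩ := isCompact_univ.exists_bound_of_continuousOn (f := f) hf.continuousOn
  have h2 := cE_of_mn_real (t := fun v => f (θ v)) (B := C) (fun v => hC _ (Set.mem_univ _))
    (c := haarMean f) (by
      refine ((Complex.continuous_ofReal.tendsto _).comp h1).congr fun n => ?_
      simp only [Function.comp]
      unfold mn
      simp [smul_eq_mul])
  exact avg_of_cE (fun v => hC _ (Set.mem_univ _)) h2

theorem joint_law (h : DirichletSatoTate θ) (hσ : ∀ v, IsFrobenius v (σ v))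
    (hc : ∀ (a : Fin n → ℕ) (τ : ℝ), ContinuesTo (LSym θ a) (1 + τ * Complex.I))
    (ht : TwistsContinue θ σ) : JointLaw (sgW n) (sgR n) θ σ :=
  joint ms (dlaw_of_mom ms (moms_of_dirichlet h)) hσ hc
    fun k ψ hk hs hnt hU a τ => ht k ψ ⟨hk, hs, hU⟩ hnt a τ

theorem joint_iff (h : JointLaw (sgW n) (sgR n) θ σ) : JointSatoTate θ σ := by
  intro U _ hU f e hf hfc he
  have hfin : Finite (Gal(AlgebraicClosure K/K) ⧸ U) := Subgroup.quotient_finite_of_isOpen _ hU
  have h1 := h U hU (fun x => (f x : ℂ)) (Complex.continuous_ofReal.comp hf)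
    (fun w hw x => by rw [class_inv hfc w hw]) (fun q => (e q : ℂ)) (fun g k => by rw [he])
  have h2 := (Complex.continuous_re.tendsto _).comp h1
  rw [wm_real] at h2
  have h3 : (((rm (sgW n) (sgR n) f : ℝ) : ℂ) *
      ((Nat.card (Gal(AlgebraicClosure K/K) ⧸ U) : ℂ)⁻¹ * ∑ᶠ q, (e q : ℂ))).re =
      haarMean f * ((Nat.card (Gal(AlgebraicClosure K/K) ⧸ U) : ℝ)⁻¹ * ∑ᶠ q, e q) := by
    letI := Fintype.ofFinite (Gal(AlgebraicClosure K/K) ⧸ U)
    rw [finsum_eq_sum_of_fintype, finsum_eq_sum_of_fintype, ← Complex.ofReal_sum,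
      ← Complex.ofReal_natCast, ← Complex.ofReal_inv, ← Complex.ofReal_mul, ← Complex.ofReal_mul,
      Complex.ofReal_re, haarMean_eq]
  rw [h3] at h2
  rw [avg_eq]
  refine h2.congr fun N => ?_
  simp only [Function.comp]
  rw [re_mn]
  congr 1
  funext v
  rw [← Complex.ofReal_mul, Complex.ofReal_re]

theorem joint_top (h : JointSatoTate θ σ) : SatoTate θ := by
  intro f hf hfc
  have h1 := h ⊤ isOpen_univ f (fun _ => 1) hf hfc (fun _ _ => rfl)
  have hsub : Subsingleton (Gal(AlgebraicClosure K/K) ⧸ (⊤ : Subgroup Gal(AlgebraicClosure K/K))) :=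
    QuotientGroup.subsingleton_quotient_top
  have hfin : Finite (Gal(AlgebraicClosure K/K) ⧸ (⊤ : Subgroup Gal(AlgebraicClosure K/K))) :=
    inferInstance
  letI := Fintype.ofFinite
    (Gal(AlgebraicClosure K/K) ⧸ (⊤ : Subgroup Gal(AlgebraicClosure K/K)))
  have h4 : ((Nat.card (Gal(AlgebraicClosure K/K) ⧸
      (⊤ : Subgroup Gal(AlgebraicClosure K/K))) : ℝ)⁻¹ * ∑ᶠ _ : (Gal(AlgebraicClosure K/K) ⧸
      (⊤ : Subgroup Gal(AlgebraicClosure K/K))), (1 : ℝ)) = 1 := by
    have h5 : (Nat.card (Gal(AlgebraicClosure K/K) ⧸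
        (⊤ : Subgroup Gal(AlgebraicClosure K/K))) : ℝ) ≠ 0 := by
      have : Nat.card (Gal(AlgebraicClosure K/K) ⧸
        (⊤ : Subgroup Gal(AlgebraicClosure K/K))) ≠ 0 := Nat.card_pos.ne'
      exact_mod_cast this
    rw [finsum_eq_sum_of_fintype, Finset.sum_const, Finset.card_univ, nsmul_eq_mul, mul_one,
      ← Nat.card_eq_fintype_card, inv_mul_cancel₀ h5]
  rw [h4, mul_one] at h1
  simpa only [mul_one] using h1

theorem bc_self : BaseChange (F := K) θ θ := by
  refine ⟨∅, fun w _ v h1 _ => ⟨1, ?_⟩⟩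
  have h3 : ∀ φ : 𝓞 K →+* 𝓞 K, (∀ z, ((φ z : 𝓞 K) : K) = (z : K)) →
      Ideal.comap φ w.asIdeal = w.asIdeal := by
    intro φ hφ
    ext z
    rw [Ideal.mem_comap, RingOfIntegers.ext (hφ z)]
  have h2 : w = v := by
    apply HeightOneSpectrum.ext
    rw [← h1, h3 _ fun z => rfl]
  rw [h2]
  funext i
  simp

theorem ext_law (h : JointLaw (sgW n) (sgR n) θ σ) (hσ : ∀ v, IsFrobenius v (σ v))
    (L : Type) [Field L] [NumberField L] [Algebra K L]
    (y : HeightOneSpectrum (𝓞 L) → UnitAddTorus (Fin n)) (hy : BaseChange θ y) :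
    SatoTate y := by
  intro f hf hfc
  have h1 := ext_of_joint Pool.Agent.Y824.FC.t (wd n).1 hσ h
  rw [avg_eq, haarMean_eq]
  refine h1 L y ?_ f hf (class_inv hfc)
  obtain ⟨S, hS⟩ := hy
  refine ⟨S, fun w hw v k1 k2 => ?_⟩
  obtain ⟨s, hs⟩ := hS w hw v k1 k2
  refine ⟨Wd.mk s, ⟨s, fun _ _ => rfl⟩, ?_⟩
  rw [hs]
  funext i
  exact (Wd.act_eq (fun _ _ => rfl) _ _).symm

end Bridge

open Pool.Agent.Y798.FC Pool.Agent.Y798.PC in
/-- **The joint Sato-Tate law for `E_1 × ⋯ × E_n` follows from meromorphy and the laws of the pairs.**  Let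
`θ_v`, `v` a prime of the number field `K`, be points of the torus `(ℝ/ℤ)^n`.

I.  Suppose that for all `a ∈ ℕ^n` the function `L(a, s)`, the `L`-function of
`Sym^{a_1} E_1 ⊗ ⋯ ⊗ Sym^{a_n} E_n`, has a meromorphic continuation to a neighbourhood of `s = 1`, with a zero or
a pole of any order.  The following are equivalent:

* no `E_i` is of finite type, and the orders of `L(Sym² E_i, s)`, `L(Sym⁴ E_i, s)` and, for `i ≠ j`, of
  `L(Sym² E_i ⊗ Sym² E_j, s)` at `s = 1` are zero;
* the Sato-Tate law holds for each `E_i`, and for `i ≠ j` the order of `L(Sym² E_i ⊗ Sym² E_j, s)` at `s = 1`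
  is zero;
* the Sato-Tate law holds for each `E_i` and for the products `E_i × E_j`, `i ≠ j`;
* the Sato-Tate law holds for `E_1 × ⋯ × E_n`.

The laws are meant in the sense of Dirichlet density.

II.  If all `L(a, s)` have meromorphic continuations to neighbourhoods of the points `1 + iτ`, with zeros and poles of
any orders, these conditions are equivalent to the law for `E_1 × ⋯ × E_n` in the sense of natural
density.

III.  If this also holds for the twists of the `L(a, s)` by the nontrivial irreducible Artin representations, the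
conditions are equivalent to the joint law with the Frobenius elements in the finite Galois extensions
of `K`, and to the law over all finite extensions of `K`. -/
theorem result (K : Type) [Field K] [NumberField K] (n : ℕ)
    (θ : HeightOneSpectrum (𝓞 K) → UnitAddTorus (Fin n))
    (hcont : ∀ a : Fin n → ℕ, ContinuesTo (LSym θ a) 1) :
    [(∀ i, ¬ IsFiniteType θ i ∧ HasOrderZero (LSym θ (Pi.single i 2)) 1 ∧
          HasOrderZero (LSym θ (Pi.single i 4)) 1) ∧
        ∀ i j, i ≠ j → HasOrderZero (LSym θ (Pi.single i 2 + Pi.single j 2)) 1,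
      (∀ i, DirichletSatoTate (fun v => (![θ v i] : UnitAddTorus (Fin 1)))) ∧
        ∀ i j, i ≠ j → HasOrderZero (LSym θ (Pi.single i 2 + Pi.single j 2)) 1,
      (∀ i, DirichletSatoTate (fun v => (![θ v i] : UnitAddTorus (Fin 1)))) ∧
        ∀ i j, i ≠ j → DirichletSatoTate (fun v => (![θ v i, θ v j] : UnitAddTorus (Fin 2))),
      DirichletSatoTate θ].TFAE ∧
    ((∀ (a : Fin n → ℕ) (τ : ℝ), ContinuesTo (LSym θ a) (1 + τ * Complex.I)) →
      (DirichletSatoTate θ ↔ SatoTate θ) ∧
      ∀ σ : HeightOneSpectrum (𝓞 K) → Gal(AlgebraicClosure K/K), (∀ v, IsFrobenius v (σ v)) →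
        TwistsContinue θ σ →
        [DirichletSatoTate θ,
          SatoTate θ,
          JointSatoTate θ σ,
          ∀ (L : Type) [Field L] [NumberField L] [Algebra K L]
            (y : HeightOneSpectrum (𝓞 L) → UnitAddTorus (Fin n)), BaseChange θ y →
            SatoTate y].TFAE) := by
  have hc : ∀ a : Fin n → ℕ, ContAt (LT θ a) 1 := hcont
  refine ⟨?_, fun h => ⟨⟨fun h1 => nat_of_dir h1 h, dir_of_nat⟩, fun σ hσ ht => ?_⟩⟩
  swap
  · tfae_have 1 → 3 := fun h1 => joint_iff (joint_law h1 hσ h ht)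
    tfae_have 3 → 2 := joint_top
    tfae_have 2 → 1 := dir_of_nat
    tfae_have 1 → 4 := fun h1 L _ _ _ y hy => ext_law (joint_law h1 hσ h ht) hσ L y hy
    tfae_have 4 → 2 := fun h1 => h1 K θ bc_self
    tfae_finish
  tfae_have 1 → 4 := fun h => dirichlet_of_moms (moms_of_orders hc
    (fun i => ⟨(zero_iff _ _).1 (h.1 i).2.1, (zero_iff _ _).1 (h.1 i).2.2, (h.1 i).1⟩)
    fun i j hij => (zero_iff _ _).1 (h.2 i j hij))
  tfae_have 4 → 3 := fun h =>
    ⟨fun i => dirichlet_of_moms (moms_single (moms_of_dirichlet h) i),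
      fun i j hij => dirichlet_of_moms (moms_pair (moms_of_dirichlet h) hij)⟩
  tfae_have 3 → 2 := fun h =>
    ⟨h.1, fun i j hij => (zero_iff _ _).2 (orders_of_pair hc hij (moms_of_dirichlet (h.2 i j hij)))⟩
  tfae_have 2 → 1 := fun h =>
    ⟨fun i => ⟨not_finT ms (moms_of_dirichlet (h.1 i)),
      (zero_iff _ _).2 (orders_of_single hc (moms_of_dirichlet (h.1 i)) (by norm_num)),
      (zero_iff _ _).2 (orders_of_single hc (moms_of_dirichlet (h.1 i)) (by norm_num))⟩, h.2⟩
  tfae_finish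

end Pool.Agent.Results.MP_753a9c_nt.PairsOfCurves
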